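import Mathlib

/-!
# MP_0a7691_co: Hamilton cycles need not generate the cycle space even if `α(G) = m` and `G` is
`m`-connected

For every `m ≥ 2` and every `n ≥ m (m + 1)` there is an `m`-connected Hamiltonian graph on `n`
vertices with independence number `m` for which the Hamilton cycles span a subspace of codimension
at least `m (m - 1) / 2` in the cycle space.
-/

set_option autoImplicit false

namespace Pool.Agent.Results.MP_0a7691_co.ChvatalErdos

open SimpleGraph

/-- Vertices `0, …, N-1`; the multiples of `q` are adjacent to everything, and otherwise two vertices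
are adjacent if they lie in the same block `[bq, (b+1)q)`. -/
def G (N q : ℕ) : SimpleGraph (Fin N) where
  Adj i j := i ≠ j ∧ (i.val % q = 0 ∨ j.val % q = 0 ∨ i.val / q = j.val / q)
  symm := ⟨fun _ _ h => ⟨h.1.symm, by rcases h.2 with h | h | h <;> simp [h]⟩⟩
  loopless := ⟨fun _ h => h.1 rfl⟩

theorem succ_cases (q i : ℕ) : (i + 1) % q = 0 ∨ i / q = (i + 1) / q := by
  rw [Nat.succ_div]
  split_ifs with h
  · exact Or.inl (Nat.mod_eq_zero_of_dvd h)
  · simp

theorem cyc_le (n q : ℕ) : cycleGraph (n + 3) ≤ G (n + 3) q := by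
  have key : ∀ u v : Fin (n + 3), (u - v).val = 1 → (G (n + 3) q).Adj u v := by
    intro u v h
    have hu := u.2
    have hv := v.2
    rw [Fin.val_sub] at h
    by_cases e : v.val ≤ u.val
    · rw [show n + 3 - v.val + u.val = (u.val - v.val) + (n + 3) by omega, Nat.add_mod_right,
        Nat.mod_eq_of_lt (by omega)] at h
      refine ⟨fun e' => by rw [e'] at h; omega, ?_⟩
      rw [show u.val = v.val + 1 by omega]
      rcases succ_cases q v.val with h | h
      · exact Or.inl h
      · exact Or.inr (Or.inr h.symm)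
    · rw [Nat.mod_eq_of_lt (by omega)] at h
      refine ⟨fun e' => by rw [e'] at e; omega, Or.inl ?_⟩
      rw [show u.val = 0 by omega]; simp
  intro u v h
  rcases cycleGraph_adj'.1 h with h | h
  · exact key _ _ h
  · exact (key _ _ h).symm

theorem ham (n q : ℕ) : (G (n + 3) q).IsHamiltonian := by
  refine IsHamiltonian.mono (cyc_le n q) (fun _ => ⟨0, cycleGraph.cycle n, ?_⟩)
  rw [Walk.isHamiltonianCycle_iff_isCycle_and_length_eq]
  exact ⟨cycleGraph.isCycle_cycle, by simp⟩

variable {N m q : ℕ}

theorem indep_le (hq : 0 < q) (hN : N ≤ m * q) : (G N q).indepNum ≤ m := by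
  obtain ⟨s, hs⟩ := (G N q).exists_isNIndepSet_indepNum
  rw [← hs.card_eq]
  have := Finset.card_le_card_of_injOn (s := s) (t := Finset.range m) (fun i => i.val / q)
    (fun i _ => by
      simp only [Finset.coe_range, Set.mem_Iio]
      exact (Nat.div_lt_iff_lt_mul hq).2 (lt_of_lt_of_le i.2 hN))
    (fun i hi j hj e => by
      by_contra h
      exact hs.isIndepSet hi hj h ⟨h, Or.inr (Or.inr e)⟩)
  simpa using this

theorem blk (hN : (m - 1) * q + 2 ≤ N) (b : Fin m) : b.val * q + 1 < N := by
  have h1 : b.val ≤ m - 1 := by have := b.2; omega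
  have := Nat.mul_le_mul_right q h1
  omega

theorem div_blk (hq : 2 ≤ q) (b : ℕ) : (b * q + 1) / q = b := by
  rw [add_comm, Nat.add_mul_div_right _ _ (by omega), Nat.div_eq_of_lt (by omega)]; simp

theorem mod_blk (hq : 2 ≤ q) (b : ℕ) : (b * q + 1) % q = 1 := by
  rw [add_comm, Nat.add_mul_mod_self_right, Nat.mod_eq_of_lt (by omega)]

theorem le_indep (hq : 2 ≤ q) (hN : (m - 1) * q + 2 ≤ N) : m ≤ (G N q).indepNum := by
  let f : Fin m → Fin N := fun b => ⟨b.val * q + 1, blk hN b⟩
  have hf : Function.Injective f := by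
    intro a b e
    have e1 : a.val * q + 1 = b.val * q + 1 := congrArg Fin.val e
    have := congrArg (· / q) e1
    simp only [div_blk hq] at this
    exact Fin.ext this
  have hind : (G N q).IsIndepSet ((Finset.univ.map ⟨f, hf⟩ : Finset (Fin N)) : Set (Fin N)) := by
    intro x hx y hy hxy hadj
    simp only [Finset.coe_map, Function.Embedding.coeFn_mk, Finset.coe_univ, Set.image_univ,
      Set.mem_range] at hx hy
    obtain ⟨a, rfl⟩ := hx
    obtain ⟨b, rfl⟩ := hy
    rcases hadj.2 with h | h | h
    · have := mod_blk hq a.val; simp only [f] at h; omega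
    · have := mod_blk hq b.val; simp only [f] at h; omega
    · simp only [f, div_blk hq] at h
      exact hxy (by rw [Fin.ext h])
  have := hind.card_le_indepNum
  simpa using this

theorem no_hub_edge (hq : 2 ≤ q) (hN1 : (m - 1) * q + 2 ≤ N) (hN : N ≤ m * q)
    (z : Fin N) (hz : z.val % q = 0)
    (p : (G N q).Walk z z) (hp : p.IsHamiltonianCycle) (j : ℕ) (hj : j < p.length)
    (h1 : (p.getVert j).val % q = 0) (h2 : (p.getVert (j + 1)).val % q = 0) : False := by
  have step : ∀ (b d i : ℕ), i + d = p.length → (p.getVert i).val % q ≠ 0 →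
      (p.getVert i).val / q = b → ∃ i', i' < p.length ∧ (p.getVert i').val % q ≠ 0 ∧
        (p.getVert i').val / q = b ∧ (p.getVert (i' + 1)).val % q = 0 := by
    intro b d
    induction d with
    | zero =>
      intro i hi h _
      rw [show i = p.length by omega, Walk.getVert_length] at h
      exact absurd hz h
    | succ d ih =>
      intro i hi h hb
      by_cases e : (p.getVert (i + 1)).val % q = 0
      · exact ⟨i, by omega, h, hb, e⟩
      · rcases (p.adj_getVert_succ (i := i) (by omega)).2 with h' | h' | h'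
        · exact absurd h' h
        · exact absurd h' e
        · exact ih (i + 1) (by omega) e (h' ▸ hb)
  have ex : ∀ b : Fin m, ∃ i', i' < p.length ∧ (p.getVert i').val % q ≠ 0 ∧
      (p.getVert i').val / q = b ∧ (p.getVert (i' + 1)).val % q = 0 := by
    intro b
    have hb : b.val * q + 1 < N := blk hN1 b
    obtain ⟨i, hi, hl⟩ := Walk.mem_support_iff_exists_getVert.1 (hp.mem_support ⟨_, hb⟩)
    refine step b (p.length - i) i (by omega) ?_ ?_
    · rw [hi]; simp only [mod_blk hq]; omega
    · rw [hi]; simp only [div_blk hq]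
  choose I hI using ex
  let J : Option (Fin m) → ℕ := fun o => o.elim j I
  have hJ : ∀ o, J o < p.length ∧ (p.getVert (J o + 1)).val % q = 0 := by
    rintro (_ | b)
    · exact ⟨hj, h2⟩
    · exact ⟨(hI b).1, (hI b).2.2.2⟩
  have hJi : Function.Injective J := by
    rintro (_ | a) (_ | b) e
    · rfl
    · exact absurd h1 ((show j = I b from e) ▸ (hI b).2.1)
    · exact absurd h1 ((show I a = j from e) ▸ (hI a).2.1)
    · have e' : I a = I b := e
      have := (hI a).2.2.1
      rw [e', (hI b).2.2.1] at this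
      rw [Fin.ext this]
  have hinj : Function.Injective (fun o => (⟨(p.getVert (J o + 1)).val / q,
      (Nat.div_lt_iff_lt_mul (by omega)).2 (lt_of_lt_of_le (p.getVert _).2 hN)⟩ : Fin m)) := by
    intro a b e
    have e1 : (p.getVert (J a + 1)).val / q = (p.getVert (J b + 1)).val / q := congrArg Fin.val e
    have e2 : p.getVert (J a + 1) = p.getVert (J b + 1) := by
      apply Fin.ext
      rw [← Nat.div_add_mod (p.getVert (J a + 1)).val q, e1, (hJ a).2, ← (hJ b).2,
        Nat.div_add_mod]
    have := hp.isCycle.getVert_injOn (by have := (hJ a).1; constructor <;> omega)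
      (by have := (hJ b).1; constructor <;> omega) e2
    exact hJi (by omega)
  have := Fintype.card_le_of_injective _ hinj
  simp at this

/-- The cycle space of `G`: the span over `𝔽₂` of the indicator functions of the edge sets of the
cycles. -/
def cycleSpace {V : Type} (G : SimpleGraph V) : Submodule (ZMod 2) (Sym2 V → ZMod 2) :=
  Submodule.span (ZMod 2) {x : Sym2 V → ZMod 2 | ∃ (u : V) (p : G.Walk u u), p.IsCycle ∧
    x = Set.indicator {e : Sym2 V | e ∈ p.edges} (fun _ => (1 : ZMod 2))}

/-- The span of the Hamilton cycles of `G`. -/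
def hamiltonSpace {V : Type} [DecidableEq V] (G : SimpleGraph V) :
    Submodule (ZMod 2) (Sym2 V → ZMod 2) :=
  Submodule.span (ZMod 2) {x : Sym2 V → ZMod 2 | ∃ (u : V) (p : G.Walk u u),
    p.IsHamiltonianCycle ∧
    x = Set.indicator {e : Sym2 V | e ∈ p.edges} (fun _ => (1 : ZMod 2))}

theorem ham_le {V : Type} [DecidableEq V] (G : SimpleGraph V) :
    hamiltonSpace G ≤ cycleSpace G :=
  Submodule.span_mono fun _ ⟨u, p, hp, hx⟩ => ⟨u, p, hp.isCycle, hx⟩

/-- the hub with number `b` -/
def hub (hN : (m - 1) * q + 2 ≤ N) (b : Fin m) : Fin N :=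
  ⟨b.val * q, lt_trans (Nat.lt_succ_self _) (blk hN b)⟩

theorem hub_inj (hq : 2 ≤ q) (hN : (m - 1) * q + 2 ≤ N) : Function.Injective (hub hN) := by
  intro a b e
  have e1 : a.val * q = b.val * q := congrArg Fin.val e
  exact Fin.ext (Nat.eq_of_mul_eq_mul_right (by omega) e1)

theorem hub_mod (hN : (m - 1) * q + 2 ≤ N) (b : Fin m) : (hub hN b).val % q = 0 := by
  simp [hub]

theorem codim (hq : 2 ≤ q) (hN1 : (m - 1) * q + 2 ≤ N) (hN : N ≤ m * q) :
    Module.finrank (ZMod 2) (hamiltonSpace (G N q)) + m.choose 2 ≤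
      Module.finrank (ZMod 2) (cycleSpace (G N q)) := by
  classical
  let I : Type := {p : Fin m × Fin m // p.1 < p.2}
  let L : (Sym2 (Fin N) → ZMod 2) →ₗ[ZMod 2] (I → ZMod 2) :=
    LinearMap.pi fun i => LinearMap.proj s(hub hN1 i.1.1, hub hN1 i.1.2)
  have hker : hamiltonSpace (G N q) ≤ LinearMap.ker L := by
    refine Submodule.span_le.2 ?_
    rintro x ⟨u, p, hp, rfl⟩
    simp only [SetLike.mem_coe, LinearMap.mem_ker]
    funext i
    simp only [L, LinearMap.pi_apply, LinearMap.proj_apply, Pi.zero_apply]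
    apply Set.indicator_of_notMem
    intro he
    set z := hub hN1 i.1.1 with hz0
    set w := hub hN1 i.1.2 with hw0
    have hz := hp.mem_support z
    have he' : s(z, w) ∈ (p.rotate z hz).edges := (p.rotate_edges z hz).mem_iff.2 he
    obtain ⟨j, hj, e⟩ := (Walk.mk_mem_edges_iff_exists _).1 he'
    refine no_hub_edge hq hN1 hN z (hub_mod hN1 _) _
      ((Walk.isHamiltonianCycle_rotate hz).2 hp) j hj ?_ ?_
    · rcases Sym2.eq_iff.1 e with ⟨h, -⟩ | ⟨h, -⟩ <;> rw [h] <;> exact hub_mod hN1 _
    · rcases Sym2.eq_iff.1 e with ⟨-, h⟩ | ⟨-, h⟩ <;> rw [h] <;> exact hub_mod hN1 _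
  let C := cycleSpace (G N q)
  let Lc : C →ₗ[ZMod 2] (I → ZMod 2) := L.comp C.subtype
  have hrange : LinearMap.range Lc = ⊤ := by
    rw [eq_top_iff, ← (Pi.basisFun (ZMod 2) I).span_eq, Submodule.span_le]
    rintro _ ⟨i, rfl⟩
    rw [SetLike.mem_coe, LinearMap.mem_range, Pi.basisFun_apply]
    set z := hub hN1 i.1.1 with hz0
    set w := hub hN1 i.1.2 with hw0
    let o : Fin N := ⟨1, by omega⟩
    have ho : o.val % q = 1 := by simp only [o]; exact Nat.mod_eq_of_lt (by omega)
    have hho : ∀ b, hub hN1 b ≠ o := by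
      intro b e
      have := hub_mod hN1 b
      rw [e, ho] at this
      omega
    have zw : z ≠ w := fun e => (ne_of_lt i.2) (hub_inj hq hN1 e)
    have zo : z ≠ o := hho _
    have wo : w ≠ o := hho _
    have a1 : (G N q).Adj z w := ⟨zw, Or.inl (hub_mod hN1 _)⟩
    have a2 : (G N q).Adj w o := ⟨wo, Or.inl (hub_mod hN1 _)⟩
    have a3 : (G N q).Adj o z := ⟨zo.symm, Or.inr (Or.inl (hub_mod hN1 _))⟩
    let T : (G N q).Walk z z := .cons a1 (.cons a2 (.cons a3 .nil))
    have hT : T.IsCycle := by
      simp [T, Walk.isCycle_def, Walk.isTrail_def, zw, zo, wo, zw.symm, zo.symm]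
    have hmem : Set.indicator {e | e ∈ T.edges} (fun _ => (1 : ZMod 2)) ∈ C :=
      Submodule.subset_span ⟨z, T, hT, rfl⟩
    refine ⟨⟨_, hmem⟩, ?_⟩
    funext i'
    simp only [Lc, L, LinearMap.comp_apply, LinearMap.pi_apply, LinearMap.proj_apply,
      Submodule.subtype_apply]
    by_cases h : i' = i
    · subst h
      rw [Pi.single_eq_same, Set.indicator_of_mem]
      simp [T, ← hz0, ← hw0]
    · rw [Pi.single_eq_of_ne h, Set.indicator_of_notMem]
      intro hmem'
      simp only [T, Walk.edges_cons, Walk.edges_nil, Set.mem_ofPred_eq, List.mem_cons,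
        List.not_mem_nil, or_false] at hmem'
      rcases hmem' with e | e | e
      · rcases Sym2.eq_iff.1 e with ⟨h1, h2⟩ | ⟨h1, h2⟩
        · exact h (Subtype.ext (Prod.ext (hub_inj hq hN1 h1) (hub_inj hq hN1 h2)))
        · have e1 := hub_inj hq hN1 h1
          have e2 := hub_inj hq hN1 h2
          have := i'.2
          rw [e1, e2] at this
          exact absurd this (not_lt.2 i.2.le)
      · rcases Sym2.eq_iff.1 e with ⟨h1, h2⟩ | ⟨h1, h2⟩
        · exact hho _ h2
        · exact hho _ h1
      · rcases Sym2.eq_iff.1 e with ⟨h1, h2⟩ | ⟨h1, h2⟩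
        · exact hho _ h1
        · exact hho _ h2
  have hcard : Fintype.card I = m.choose 2 := by
    let eq : I ≃ (Σ b : Fin m, Fin b.val) :=
      { toFun := fun p => ⟨p.1.2, ⟨p.1.1.val, p.2⟩⟩
        invFun := fun s => ⟨(⟨s.2.val, lt_trans s.2.2 s.1.2⟩, s.1), s.2.2⟩
        left_inv := fun p => rfl
        right_inv := fun s => rfl }
    rw [Fintype.card_congr eq, Fintype.card_sigma]
    simp only [Fintype.card_fin]
    rw [Fin.sum_univ_eq_sum_range (fun i => i) m, Finset.sum_range_id, Nat.choose_two_right]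
  have h1 := LinearMap.finrank_range_add_finrank_ker Lc
  rw [hrange, finrank_top, Module.finrank_fintype_fun_eq_card, hcard] at h1
  have h2 : Module.finrank (ZMod 2) (hamiltonSpace (G N q)) ≤
      Module.finrank (ZMod 2) (LinearMap.ker Lc) := by
    have e := (Submodule.comapSubtypeEquivOfLe (ham_le (G N q))).finrank_eq
    rw [← e]
    apply Submodule.finrank_mono
    intro x hx
    rw [LinearMap.mem_ker]
    exact hker hx
  have h3 : Module.finrank (ZMod 2) C = Module.finrank (ZMod 2) (cycleSpace (G N q)) := rfl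
  rw [← h3]
  omega

/-- For every `m ≥ 2` and every `n ≥ m (m + 1)` (odd or even) there is an `m`-connected Hamiltonian
graph on `n` vertices with independence number exactly `m` for which the span of the Hamilton cycles
has codimension at least `m (m - 1) / 2` in the cycle space. -/
theorem result (m : ℕ) (hm : 2 ≤ m) (n : ℕ) (hn : m * (m + 1) ≤ n) :
    ∃ G : SimpleGraph (Fin n),
      (m < n ∧ ∀ S : Finset (Fin n), S.card < m →
        (G.induce ((↑S : Set (Fin n))ᶜ)).Connected) ∧
      G.indepNum = m ∧ G.IsHamiltonian ∧ hamiltonSpace G ≤ cycleSpace G ∧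
      Module.finrank (ZMod 2) (hamiltonSpace G) + m.choose 2 ≤
        Module.finrank (ZMod 2) (cycleSpace G) := by
  have h3m : 3 * m ≤ m * (m + 1) := by nlinarith
  -- the block length
  obtain ⟨q, hq2, hN1, hN⟩ : ∃ q, 2 ≤ q ∧ (m - 1) * q + 2 ≤ n ∧ n ≤ m * q := by
    refine ⟨(n + m - 1) / m, ?_, ?_, ?_⟩
    · rw [Nat.le_div_iff_mul_le (by omega)]
      omega
    · have h1 : m * ((n + m - 1) / m) ≤ n + m - 1 := Nat.mul_div_le _ _
      have h2 : m + 1 ≤ (n + m - 1) / m := by
        rw [Nat.le_div_iff_mul_le (by omega)]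
        have : (m + 1) * m = m * (m + 1) := by ring
        omega
      set q := (n + m - 1) / m
      have h3 : (m - 1) * q + q = m * q := by
        obtain ⟨k, rfl⟩ : ∃ k, m = k + 1 := ⟨m - 1, by omega⟩
        simp only [Nat.add_sub_cancel]; ring
      omega
    · have := Nat.lt_div_mul_add (a := n + m - 1) (b := m) (by omega)
      have h4 : (n + m - 1) / m * m = m * ((n + m - 1) / m) := by ring
      omega
  have hmn : m < n := by omega
  refine ⟨G n q, ⟨hmn, fun S hS => ?_⟩, le_antisymm (indep_le (by omega) hN) (le_indep hq2 hN1),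
    ?_, ham_le _, codim hq2 hN1 hN⟩
  · have : ∃ b : Fin m, hub hN1 b ∉ S := by
      by_contra hc
      push Not at hc
      have := Finset.card_le_card_of_injOn (s := Finset.univ) (t := S) _ (fun b _ => hc b)
        (fun a _ b _ e => hub_inj hq2 hN1 e)
      simp at this
      omega
    obtain ⟨b, hb⟩ := this
    rw [connected_iff_exists_forall_reachable]
    refine ⟨⟨_, hb⟩, fun v => ?_⟩
    by_cases e : (⟨_, hb⟩ : ((↑S : Set (Fin n))ᶜ : Set _)) = v
    · rw [e]
    · exact Adj.reachable ⟨fun h => e (Subtype.ext h), Or.inl (hub_mod hN1 b)⟩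
  · obtain ⟨k, hk⟩ : ∃ k, n = k + 3 := ⟨n - 3, by omega⟩
    subst hk
    exact ham k q

end Pool.Agent.Results.MP_0a7691_co.ChvatalErdos
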